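import Pool.Agent.H735MQ.Twist

/-! Montgomery's conjecture for almost all twists. -/

set_option autoImplicit false

open Finset

namespace Pool.Agent.H735MQ

theorem markov {α : Type*} [Fintype α] (f : α → ℝ) (hf : ∀ x, 0 ≤ f x) (Λ M : ℝ)
    (hM : ∑ x, f x ≤ M) (s : Set α) (hs : ∀ x ∈ s, Λ ≤ f x) :
    (s.ncard : ℝ) * Λ ≤ M := by
  classical
  refine le_trans ?_ hM
  rw [Set.ncard_eq_toFinset_card' s, ← nsmul_eq_mul, ← Finset.sum_const]
  calc ∑ _x ∈ s.toFinset, Λ ≤ ∑ x ∈ s.toFinset, f x :=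
        Finset.sum_le_sum (fun x hx => hs x (by simpa using hx))
    _ ≤ ∑ x, f x := Finset.sum_le_sum_of_subset_of_nonneg (Finset.subset_univ _)
        (fun x _ _ => hf x)

theorem fact_count (s : Finset ℕ) (M k : ℕ) (η C0 : ℝ) (hη : 0 ≤ η) (hC00 : 0 < C0)
    (hdiv : ∀ n : ℕ, 1 ≤ n → (n.divisors.card : ℝ) ≤ C0 * (n : ℝ) ^ η) :
    ∀ n ∈ Icc 1 (M ^ k), (((Fintype.piFinset (fun _ : Fin k => s)).filter
      (fun d => ∏ i, d i = n)).card : ℝ) ≤ C0 ^ k * (M : ℝ) ^ (k * k * η) := by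
  intro n hn
  rw [mem_Icc] at hn
  have hsub : (Fintype.piFinset (fun _ : Fin k => s)).filter (fun d => ∏ i, d i = n)
      ⊆ Fintype.piFinset (fun _ : Fin k => n.divisors) := by
    intro d hd
    rw [Finset.mem_filter] at hd
    rw [Fintype.mem_piFinset]
    intro j
    rw [Nat.mem_divisors]
    refine ⟨?_, by omega⟩
    rw [← hd.2]
    exact Finset.dvd_prod_of_mem d (Finset.mem_univ j)
  have h1 : ((Fintype.piFinset (fun _ : Fin k => s)).filter (fun d => ∏ i, d i = n)).card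
      ≤ n.divisors.card ^ k := by
    have := Finset.card_le_card hsub
    rw [Fintype.card_piFinset] at this
    simpa using this
  have hn0 : (0 : ℝ) ≤ n := Nat.cast_nonneg _
  have hM0 : (0 : ℝ) ≤ M := Nat.cast_nonneg _
  calc (((Fintype.piFinset (fun _ : Fin k => s)).filter (fun d => ∏ i, d i = n)).card : ℝ)
      ≤ (n.divisors.card : ℝ) ^ k := by exact_mod_cast h1
    _ ≤ (C0 * (n : ℝ) ^ η) ^ k := pow_le_pow_left₀ (by positivity) (hdiv n hn.1) k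
    _ = C0 ^ k * (n : ℝ) ^ (η * k) := by
        rw [mul_pow, ← Real.rpow_natCast ((n : ℝ) ^ η) k, ← Real.rpow_mul hn0]
    _ ≤ C0 ^ k * (M : ℝ) ^ (k * k * η) := by
        refine mul_le_mul_of_nonneg_left ?_ (by positivity)
        have h2 : (n : ℝ) ≤ (M : ℝ) ^ (k : ℝ) := by
          rw [Real.rpow_natCast]
          exact_mod_cast hn.2
        calc (n : ℝ) ^ (η * k) ≤ ((M : ℝ) ^ (k : ℝ)) ^ (η * k) :=
              Real.rpow_le_rpow hn0 h2 (by positivity)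
          _ = (M : ℝ) ^ (k * k * η) := by
              rw [← Real.rpow_mul hM0]; congr 1; ring

/-- the twisted Dirichlet polynomial -/
noncomputable def DP (N : ℕ) (b : ℕ → ℂ) (r : ℕ) (χ : DirichletCharacter ℂ r) (t : ℕ) : ℂ :=
  ∑ n ∈ Icc N (2 * N), b n * χ (n : ZMod r)
    * Complex.exp (Complex.I * (t : ℂ) * ((Real.log (n : ℝ) : ℝ) : ℂ))

theorem almost_all_twists (q ε B : ℝ) (hq : 0 < q) (hε : 0 < ε) (hB : 0 < B) :
    ∃ K : ℝ, ∃ k : ℕ, ∀ N T : ℕ, 1 ≤ N → 1 ≤ T → ∀ b : ℕ → ℂ, (∀ n, ‖b n‖ ≤ 1) →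
      ∀ r : ℕ, r.Prime → (2 * N) ^ k < r →
        ({χ : DirichletCharacter ℂ r | K * (N : ℝ) ^ ε * ((N : ℝ) ^ (q / 2) * (T : ℝ))
            < ∑ t ∈ Icc 1 T, ‖∑ n ∈ Icc N (2 * N), b n * χ (n : ZMod r)
              * Complex.exp (Complex.I * (t : ℂ) * ((Real.log (n : ℝ) : ℝ) : ℂ))‖ ^ q}.ncard : ℝ)
          ≤ r * (N : ℝ) ^ (-B) := by
  classical
  obtain ⟨k0, hk0⟩ := exists_nat_ge (max (q / 2) (q * B / ε))
  set k : ℕ := k0 + 1 with hk
  have hkr : (0 : ℝ) < k := by rw [hk]; positivity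
  have hk1 : q / 2 ≤ k := (le_max_left _ _).trans (hk0.trans (by rw [hk]; push_cast; linarith))
  have hk2 : q * B / ε ≤ k := (le_max_right _ _).trans (hk0.trans (by rw [hk]; push_cast; linarith))
  have hk2' : B ≤ k * ε / q := by
    rw [div_le_iff₀ hε] at hk2
    rw [le_div_iff₀ hq]
    linarith
  set P : ℝ := 2 * k / q with hP
  have hP1 : 1 ≤ P := by rw [hP, le_div_iff₀ hq]; linarith
  have hP0 : 0 < P := by linarith
  set η : ℝ := ε / (q * k) with hη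
  have hη0 : 0 < η := by positivity
  obtain ⟨C0, hC00, hdiv⟩ := Pool.Agent.H510R2.divisor_bound η hη0
  set C : ℝ := C0 ^ k * 2 ^ (k * ε / q) * 2 ^ k with hC
  have hCpos : 0 < C := by positivity
  refine ⟨C ^ (1 / P), k, ?_⟩
  intro N T hN hT b hb r hr hrN
  have hN1 : (1 : ℝ) ≤ N := by exact_mod_cast hN
  have hN0 : (0 : ℝ) < N := by linarith
  have hT1 : (1 : ℝ) ≤ T := by exact_mod_cast hT
  have hT0 : (0 : ℝ) < T := by linarith
  have hr0 : (0 : ℝ) < r := by exact_mod_cast hr.pos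
  set lam : ℝ := C ^ (1 / P) * (N : ℝ) ^ ε * (N : ℝ) ^ (q / 2) with hlam
  have hlam0 : 0 < lam := by positivity
  -- moment bound
  have hs : Icc N (2 * N) ⊆ Icc 1 (2 * N) := Finset.Icc_subset_Icc hN le_rfl
  have hcount := fact_count (Icc N (2 * N)) (2 * N) k η C0 hη0.le hC00 hdiv
  have hmom : ∀ t ∈ Icc 1 T, ∑ χ : DirichletCharacter ℂ r, ‖DP N b r χ t‖ ^ (2 * k)
      ≤ r * (C * (N : ℝ) ^ (k * ε / q) * (N : ℝ) ^ k) := by
    intro t _
    have h1 := moment (Icc N (2 * N)) (2 * N) k hs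
      (fun n => b n * Complex.exp (Complex.I * (t : ℂ) * ((Real.log (n : ℝ) : ℝ) : ℂ)))
      _ hcount r hr hrN
    have h2 : ∀ χ : DirichletCharacter ℂ r, DP N b r χ t
        = ∑ m ∈ Icc N (2 * N), (b m * Complex.exp (Complex.I * (t : ℂ) *
          ((Real.log (m : ℝ) : ℝ) : ℂ))) * χ (m : ZMod r) := by
      intro χ
      rw [DP]
      refine Finset.sum_congr rfl (fun n _ => ?_)
      ring
    rw [Finset.sum_congr rfl (fun χ _ => by rw [h2 χ])]
    refine h1.trans (mul_le_mul_of_nonneg_left ?_ hr0.le)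
    have h3 : ∑ m ∈ Icc N (2 * N), ‖b m * Complex.exp (Complex.I * (t : ℂ) *
          ((Real.log (m : ℝ) : ℝ) : ℂ))‖ ^ 2 ≤ 2 * (N : ℝ) := by
      refine (Finset.sum_le_sum (g := fun _ => (1 : ℝ)) (fun m _ => ?_)).trans ?_
      · have h4 : ‖Complex.exp (Complex.I * (t : ℂ) * ((Real.log (m : ℝ) : ℝ) : ℂ))‖ = 1 := by
          rw [show Complex.I * (t : ℂ) * ((Real.log (m : ℝ) : ℝ) : ℂ)
            = ((((t : ℝ) * Real.log (m : ℝ)) : ℝ) : ℂ) * Complex.I by push_cast; ring]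
          exact Complex.norm_exp_ofReal_mul_I _
        rw [norm_mul, h4, mul_one]
        exact pow_le_one₀ (norm_nonneg _) (hb m)
      · simp only [Finset.sum_const, Nat.card_Icc, nsmul_eq_mul, mul_one]
        have : 2 * N + 1 - N ≤ 2 * N := by omega
        exact_mod_cast this
    have h5 : (∑ m ∈ Icc N (2 * N), ‖b m * Complex.exp (Complex.I * (t : ℂ) *
          ((Real.log (m : ℝ) : ℝ) : ℂ))‖ ^ 2) ^ k ≤ (2 * (N : ℝ)) ^ k :=
      pow_le_pow_left₀ (Finset.sum_nonneg (fun _ _ => sq_nonneg _)) h3 k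
    have h6 : (((2 * N : ℕ) : ℝ)) ^ ((k : ℝ) * k * η) = 2 ^ (k * ε / q) * (N : ℝ) ^ (k * ε / q) := by
      push_cast
      rw [Real.mul_rpow (by norm_num) hN0.le]
      have h7 : (k : ℝ) * k * η = k * ε / q := by rw [hη]; field_simp
      rw [h7]
    rw [h6]
    calc C0 ^ k * (2 ^ (k * ε / q) * (N : ℝ) ^ (k * ε / q)) *
        (∑ m ∈ Icc N (2 * N), ‖b m * Complex.exp (Complex.I * (t : ℂ) *
          ((Real.log (m : ℝ) : ℝ) : ℂ))‖ ^ 2) ^ k
        ≤ C0 ^ k * (2 ^ (k * ε / q) * (N : ℝ) ^ (k * ε / q)) * (2 * (N : ℝ)) ^ k := by gcongr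
      _ = C * (N : ℝ) ^ (k * ε / q) * (N : ℝ) ^ k := by rw [hC, mul_pow]; ring
  have hmom2 : ∑ χ : DirichletCharacter ℂ r, ∑ t ∈ Icc 1 T, ‖DP N b r χ t‖ ^ (2 * k)
      ≤ T * (r * (C * (N : ℝ) ^ (k * ε / q) * (N : ℝ) ^ k)) := by
    rw [Finset.sum_comm]
    refine (Finset.sum_le_sum hmom).trans (le_of_eq ?_)
    rw [Finset.sum_const, Nat.card_Icc, nsmul_eq_mul]
    simp
  have hm := markov (fun χ : DirichletCharacter ℂ r => ∑ t ∈ Icc 1 T, ‖DP N b r χ t‖ ^ (2 * k))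
    (fun χ => Finset.sum_nonneg (fun _ _ => by positivity)) (lam ^ P * T) _ hmom2
    {χ : DirichletCharacter ℂ r | C ^ (1 / P) * (N : ℝ) ^ ε * ((N : ℝ) ^ (q / 2) * (T : ℝ))
            < ∑ t ∈ Icc 1 T, ‖∑ n ∈ Icc N (2 * N), b n * χ (n : ZMod r)
              * Complex.exp (Complex.I * (t : ℂ) * ((Real.log (n : ℝ) : ℝ) : ℂ))‖ ^ q} ?_
  · -- conclusion
    have h1 : lam ^ P = C * (N : ℝ) ^ (2 * (k * ε / q)) * (N : ℝ) ^ k := by
      rw [hlam, Real.mul_rpow (by positivity) (by positivity),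
        Real.mul_rpow (by positivity) (by positivity), ← Real.rpow_mul hCpos.le,
        ← Real.rpow_mul hN0.le, ← Real.rpow_mul hN0.le]
      have e1 : 1 / P * P = 1 := by field_simp
      have e2 : ε * P = 2 * (k * ε / q) := by rw [hP]; ring
      have e3 : q / 2 * P = (k : ℝ) := by rw [hP]; field_simp
      rw [e1, e2, e3, Real.rpow_one, Real.rpow_natCast]
    rw [h1] at hm
    set Z : ℝ := (({χ : DirichletCharacter ℂ r | C ^ (1 / P) * (N : ℝ) ^ ε *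
            ((N : ℝ) ^ (q / 2) * (T : ℝ))
            < ∑ t ∈ Icc 1 T, ‖∑ n ∈ Icc N (2 * N), b n * χ (n : ZMod r)
              * Complex.exp (Complex.I * (t : ℂ) * ((Real.log (n : ℝ) : ℝ) : ℂ))‖ ^ q}.ncard : ℕ) : ℝ)
      with hZ
    have h2 : (N : ℝ) ^ (2 * (k * ε / q)) = (N : ℝ) ^ (k * ε / q) * (N : ℝ) ^ (k * ε / q) := by
      rw [← Real.rpow_add hN0]; congr 1; ring
    rw [h2] at hm
    have hpos : (0 : ℝ) < C * (N : ℝ) ^ (k * ε / q) * (N : ℝ) ^ k * T := by positivity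
    have h3 : Z * (N : ℝ) ^ (k * ε / q) ≤ r := by
      have h4 : (Z * (N : ℝ) ^ (k * ε / q)) * (C * (N : ℝ) ^ (k * ε / q) * (N : ℝ) ^ k * T)
          ≤ r * (C * (N : ℝ) ^ (k * ε / q) * (N : ℝ) ^ k * T) := by
        calc _ = Z * (C * ((N : ℝ) ^ (k * ε / q) * (N : ℝ) ^ (k * ε / q)) * (N : ℝ) ^ k * T) := by
              ring
          _ ≤ _ := hm
          _ = _ := by ring
      exact le_of_mul_le_mul_right h4 hpos
    have h5 : (N : ℝ) ^ B ≤ (N : ℝ) ^ (k * ε / q) := Real.rpow_le_rpow_of_exponent_le hN1 hk2'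
    have hZ0 : 0 ≤ Z := Nat.cast_nonneg _
    rw [Real.rpow_neg hN0.le, ← div_eq_mul_inv, le_div_iff₀ (Real.rpow_pos_of_pos hN0 _)]
    exact (mul_le_mul_of_nonneg_left h5 hZ0).trans h3
  · intro χ hχ
    rw [Set.mem_ofPred_eq] at hχ
    have hDP : ∀ t : ℕ, ∑ n ∈ Icc N (2 * N), b n * χ (n : ZMod r)
              * Complex.exp (Complex.I * (t : ℂ) * ((Real.log (n : ℝ) : ℝ) : ℂ)) = DP N b r χ t :=
      fun t => rfl
    have h0 : lam * T < ∑ t ∈ Icc 1 T, ‖DP N b r χ t‖ ^ q := by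
      refine lt_of_le_of_lt (le_of_eq ?_) hχ
      rw [hlam]; ring
    have h1 := Real.rpow_sum_le_const_mul_sum_rpow_of_nonneg (Icc 1 T)
      (f := fun t => ‖DP N b r χ t‖ ^ q) hP1 (fun t _ => by positivity)
    have h2 : ∀ t ∈ Icc 1 T, (‖DP N b r χ t‖ ^ q) ^ P = ‖DP N b r χ t‖ ^ (2 * k) := by
      intro t _
      rw [← Real.rpow_mul (norm_nonneg _)]
      have : q * P = ((2 * k : ℕ) : ℝ) := by rw [hP]; push_cast; field_simp
      rw [this, Real.rpow_natCast]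
    rw [Finset.sum_congr rfl h2, Nat.card_Icc] at h1
    have h3 : (lam * T) ^ P ≤ (∑ t ∈ Icc 1 T, ‖DP N b r χ t‖ ^ q) ^ P :=
      Real.rpow_le_rpow (by positivity) h0.le hP0.le
    have h4 := h3.trans h1
    have h5 : ((T + 1 - 1 : ℕ) : ℝ) = T := by simp
    rw [h5, Real.mul_rpow hlam0.le hT0.le] at h4
    have h6 : (T : ℝ) ^ P = (T : ℝ) ^ (P - 1) * T := by
      rw [← Real.rpow_add_one hT0.ne']; congr 1; ring
    rw [h6] at h4
    have h7 : (0 : ℝ) < (T : ℝ) ^ (P - 1) := Real.rpow_pos_of_pos hT0 _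
    refine le_of_mul_le_mul_left ?_ h7
    calc (T : ℝ) ^ (P - 1) * (lam ^ P * T) = lam ^ P * ((T : ℝ) ^ (P - 1) * T) := by ring
      _ ≤ _ := h4

end Pool.Agent.H735MQ
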