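import Pool.Agent.H735MQ.Final

/-! No large values for almost all twists. -/

set_option autoImplicit false

open Finset

namespace Pool.Agent.H735MQ

theorem no_large_values (A σ B : ℝ) (hA : 0 ≤ A) (hσ : 1 / 2 < σ) (hB : 0 < B) :
    ∃ K : ℝ, ∃ k : ℕ, ∀ N : ℕ, 1 ≤ N → ∀ T : ℝ, T ≤ (N : ℝ) ^ A →
      ∀ b : ℕ → ℂ, (∀ n, ‖b n‖ ≤ 1) → ∀ r : ℕ, r.Prime → (2 * N) ^ k < r →
        ({χ : DirichletCharacter ℂ r | ∃ t : ℤ, 0 ≤ (t : ℝ) ∧ (t : ℝ) ≤ T ∧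
            (N : ℝ) ^ σ < ‖∑ n ∈ Icc N (2 * N), b n * χ (n : ZMod r)
              * Complex.exp ((((t : ℝ) * Real.log (n : ℝ) : ℝ) : ℂ) * Complex.I)‖}.ncard : ℝ)
          ≤ K * r * (N : ℝ) ^ (-B) := by
  classical
  set s : ℝ := σ - 1 / 2 with hs
  have hs0 : 0 < s := by rw [hs]; linarith
  obtain ⟨k0, hk0⟩ := exists_nat_ge ((A + B) / s)
  set k : ℕ := k0 + 1 with hk
  have hkr : (0 : ℝ) < k := by rw [hk]; positivity
  have hk1 : A + B ≤ k * s := by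
    have h1 : (A + B) / s ≤ k := hk0.trans (by rw [hk]; push_cast; linarith)
    rwa [div_le_iff₀ hs0] at h1
  set η : ℝ := s / k with hη
  have hη0 : 0 < η := by positivity
  obtain ⟨C0, hC00, hdiv⟩ := Pool.Agent.H510R2.divisor_bound η hη0
  set C : ℝ := C0 ^ k * 2 ^ (k * s) * 2 ^ k with hC
  have hCpos : 0 < C := by positivity
  refine ⟨2 * C, k, ?_⟩
  intro N hN T hT b hb r hr hrN
  have hN1 : (1 : ℝ) ≤ N := by exact_mod_cast hN
  have hN0 : (0 : ℝ) < N := by linarith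
  have hr0 : (0 : ℝ) < r := by exact_mod_cast hr.pos
  have hNA1 : (1 : ℝ) ≤ (N : ℝ) ^ A := Real.one_le_rpow hN1 hA
  set M : ℕ := ⌊(N : ℝ) ^ A⌋₊ with hM
  have hMle : (M : ℝ) ≤ (N : ℝ) ^ A := Nat.floor_le (by positivity)
  have hsub : Icc N (2 * N) ⊆ Icc 1 (2 * N) := Finset.Icc_subset_Icc hN le_rfl
  have hcount := fact_count (Icc N (2 * N)) (2 * N) k η C0 hη0.le hC00 hdiv
  let D : DirichletCharacter ℂ r → ℕ → ℂ := fun χ t =>
    ∑ n ∈ Icc N (2 * N), b n * χ (n : ZMod r)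
      * Complex.exp ((((t : ℝ) * Real.log (n : ℝ) : ℝ) : ℂ) * Complex.I)
  have hmom : ∀ t ∈ range (M + 1), ∑ χ : DirichletCharacter ℂ r, ‖D χ t‖ ^ (2 * k)
      ≤ r * (C * (N : ℝ) ^ (k * s) * (N : ℝ) ^ k) := by
    intro t _
    have h1 := moment (Icc N (2 * N)) (2 * N) k hsub
      (fun n => b n * Complex.exp ((((t : ℝ) * Real.log (n : ℝ) : ℝ) : ℂ) * Complex.I))
      _ hcount r hr hrN
    have h2 : ∀ χ : DirichletCharacter ℂ r, D χ t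
        = ∑ m ∈ Icc N (2 * N), (b m * Complex.exp ((((t : ℝ) * Real.log (m : ℝ) : ℝ) : ℂ)
          * Complex.I)) * χ (m : ZMod r) := by
      intro χ
      refine Finset.sum_congr rfl (fun n _ => ?_)
      ring
    rw [Finset.sum_congr rfl (fun χ _ => by rw [h2 χ])]
    refine h1.trans (mul_le_mul_of_nonneg_left ?_ hr0.le)
    have h3 : ∑ m ∈ Icc N (2 * N), ‖b m * Complex.exp ((((t : ℝ) * Real.log (m : ℝ) : ℝ) : ℂ)
          * Complex.I)‖ ^ 2 ≤ 2 * (N : ℝ) := by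
      refine (Finset.sum_le_sum (g := fun _ => (1 : ℝ)) (fun m _ => ?_)).trans ?_
      · rw [norm_mul, Complex.norm_exp_ofReal_mul_I, mul_one]
        exact pow_le_one₀ (norm_nonneg _) (hb m)
      · simp only [Finset.sum_const, Nat.card_Icc, nsmul_eq_mul, mul_one]
        have : 2 * N + 1 - N ≤ 2 * N := by omega
        exact_mod_cast this
    have h5 : (∑ m ∈ Icc N (2 * N), ‖b m * Complex.exp ((((t : ℝ) * Real.log (m : ℝ) : ℝ) : ℂ)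
          * Complex.I)‖ ^ 2) ^ k ≤ (2 * (N : ℝ)) ^ k :=
      pow_le_pow_left₀ (Finset.sum_nonneg (fun _ _ => sq_nonneg _)) h3 k
    have h6 : (((2 * N : ℕ) : ℝ)) ^ ((k : ℝ) * k * η) = 2 ^ (k * s) * (N : ℝ) ^ (k * s) := by
      push_cast
      rw [Real.mul_rpow (by norm_num) hN0.le]
      have h7 : (k : ℝ) * k * η = k * s := by rw [hη]; field_simp
      rw [h7]
    rw [h6]
    calc C0 ^ k * (2 ^ (k * s) * (N : ℝ) ^ (k * s)) *
        (∑ m ∈ Icc N (2 * N), ‖b m * Complex.exp ((((t : ℝ) * Real.log (m : ℝ) : ℝ) : ℂ)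
          * Complex.I)‖ ^ 2) ^ k
        ≤ C0 ^ k * (2 ^ (k * s) * (N : ℝ) ^ (k * s)) * (2 * (N : ℝ)) ^ k := by gcongr
      _ = C * (N : ℝ) ^ (k * s) * (N : ℝ) ^ k := by rw [hC, mul_pow]; ring
  have hmom2 : ∑ χ : DirichletCharacter ℂ r, ∑ t ∈ range (M + 1), ‖D χ t‖ ^ (2 * k)
      ≤ (M + 1 : ℝ) * (r * (C * (N : ℝ) ^ (k * s) * (N : ℝ) ^ k)) := by
    rw [Finset.sum_comm]
    refine (Finset.sum_le_sum hmom).trans (le_of_eq ?_)
    rw [Finset.sum_const, card_range, nsmul_eq_mul]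
    push_cast; ring
  have hm := markov (fun χ : DirichletCharacter ℂ r => ∑ t ∈ range (M + 1), ‖D χ t‖ ^ (2 * k))
    (fun χ => Finset.sum_nonneg (fun _ _ => by positivity)) (((N : ℝ) ^ σ) ^ (2 * k)) _ hmom2
    {χ : DirichletCharacter ℂ r | ∃ t : ℤ, 0 ≤ (t : ℝ) ∧ (t : ℝ) ≤ T ∧
            (N : ℝ) ^ σ < ‖∑ n ∈ Icc N (2 * N), b n * χ (n : ZMod r)
              * Complex.exp ((((t : ℝ) * Real.log (n : ℝ) : ℝ) : ℂ) * Complex.I)‖} ?_
  · set Z : ℝ := (({χ : DirichletCharacter ℂ r | ∃ t : ℤ, 0 ≤ (t : ℝ) ∧ (t : ℝ) ≤ T ∧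
            (N : ℝ) ^ σ < ‖∑ n ∈ Icc N (2 * N), b n * χ (n : ZMod r)
              * Complex.exp ((((t : ℝ) * Real.log (n : ℝ) : ℝ) : ℂ) * Complex.I)‖}.ncard : ℕ) : ℝ)
      with hZ
    have hZ0 : 0 ≤ Z := Nat.cast_nonneg _
    have h1 : ((N : ℝ) ^ σ) ^ (2 * k) = (N : ℝ) ^ (k * s) * ((N : ℝ) ^ (k * s) * (N : ℝ) ^ k) := by
      rw [← Real.rpow_natCast ((N : ℝ) ^ σ), ← Real.rpow_mul hN0.le, ← Real.rpow_natCast (N : ℝ) k,
        ← Real.rpow_add hN0, ← Real.rpow_add hN0]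
      congr 1
      rw [hs]; push_cast; ring
    rw [h1] at hm
    have hpos : (0 : ℝ) < (N : ℝ) ^ (k * s) * (N : ℝ) ^ k := by positivity
    have h2 : Z * (N : ℝ) ^ (k * s) ≤ (M + 1 : ℝ) * r * C := by
      have h3 : (Z * (N : ℝ) ^ (k * s)) * ((N : ℝ) ^ (k * s) * (N : ℝ) ^ k)
          ≤ ((M + 1 : ℝ) * r * C) * ((N : ℝ) ^ (k * s) * (N : ℝ) ^ k) := by
        calc _ = Z * ((N : ℝ) ^ (k * s) * ((N : ℝ) ^ (k * s) * (N : ℝ) ^ k)) := by ring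
          _ ≤ _ := hm
          _ = _ := by ring
      exact le_of_mul_le_mul_right h3 hpos
    have h4 : (M + 1 : ℝ) ≤ 2 * (N : ℝ) ^ A := by linarith
    have h5 : (N : ℝ) ^ A * (N : ℝ) ^ B ≤ (N : ℝ) ^ (k * s) := by
      rw [← Real.rpow_add hN0]
      exact Real.rpow_le_rpow_of_exponent_le hN1 hk1
    have hNA0 : (0 : ℝ) < (N : ℝ) ^ A := by positivity
    have h6 : Z * (N : ℝ) ^ B ≤ 2 * C * r := by
      have h7 : (Z * (N : ℝ) ^ B) * (N : ℝ) ^ A ≤ (2 * C * r) * (N : ℝ) ^ A := by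
        calc (Z * (N : ℝ) ^ B) * (N : ℝ) ^ A = Z * ((N : ℝ) ^ A * (N : ℝ) ^ B) := by ring
          _ ≤ Z * (N : ℝ) ^ (k * s) := mul_le_mul_of_nonneg_left h5 hZ0
          _ ≤ (M + 1 : ℝ) * r * C := h2
          _ ≤ (2 * (N : ℝ) ^ A) * r * C := by gcongr
          _ = _ := by ring
      exact le_of_mul_le_mul_right h7 hNA0
    rw [Real.rpow_neg hN0.le, ← div_eq_mul_inv, le_div_iff₀ (Real.rpow_pos_of_pos hN0 _)]
    exact h6
  · intro χ hχ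
    rw [Set.mem_ofPred_eq] at hχ
    obtain ⟨t, ht0, htT, ht⟩ := hχ
    have ht0' : 0 ≤ t := by exact_mod_cast ht0
    obtain ⟨u, rfl⟩ := Int.eq_ofNat_of_zero_le ht0'
    have huM : u ≤ M := by
      rw [hM]
      apply Nat.le_floor
      have : ((u : ℤ) : ℝ) ≤ (N : ℝ) ^ A := htT.trans hT
      exact_mod_cast this
    have hD : ‖D χ u‖ = ‖∑ n ∈ Icc N (2 * N), b n * χ (n : ZMod r)
              * Complex.exp (((((u : ℤ) : ℝ) * Real.log (n : ℝ) : ℝ) : ℂ) * Complex.I)‖ := by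
      simp only [D, Int.cast_natCast]
    rw [← hD] at ht
    calc ((N : ℝ) ^ σ) ^ (2 * k) ≤ ‖D χ u‖ ^ (2 * k) :=
          pow_le_pow_left₀ (by positivity) ht.le _
      _ ≤ ∑ t ∈ range (M + 1), ‖D χ t‖ ^ (2 * k) :=
          Finset.single_le_sum (f := fun t => ‖D χ t‖ ^ (2 * k)) (fun _ _ => by positivity)
            (mem_range.mpr (by omega))

end Pool.Agent.H735MQ
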