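import Mathlib
import Pool.Agent.H735CB.Moment
import Pool.Agent.H510R2.Div

/-! Moments of twisted Dirichlet polynomials over the characters of a large prime modulus. -/

set_option autoImplicit false

open Finset

namespace Pool.Agent.H735MQ

/-- the coefficients of the k-th power -/
noncomputable def al (s : Finset ℕ) (k : ℕ) (c : ℕ → ℂ) (n : ℕ) : ℂ :=
  ∑ d ∈ (Fintype.piFinset (fun _ : Fin k => s)).filter (fun d => ∏ i, d i = n), ∏ i, c (d i)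

theorem prod_mem (s : Finset ℕ) (M k : ℕ) (hs : s ⊆ Icc 1 M) (d : Fin k → ℕ)
    (hd : d ∈ Fintype.piFinset (fun _ : Fin k => s)) :
    ∏ i, d i ∈ Icc 1 (M ^ k) := by
  rw [Fintype.mem_piFinset] at hd
  rw [mem_Icc]
  constructor
  · exact Finset.one_le_prod' (fun i _ => (mem_Icc.mp (hs (hd i))).1)
  · calc ∏ i, d i ≤ ∏ _i : Fin k, M := Finset.prod_le_prod' (fun i _ => (mem_Icc.mp (hs (hd i))).2)
      _ = M ^ k := by simp

theorem pow_expand (s : Finset ℕ) (M k : ℕ) (hs : s ⊆ Icc 1 M) (c : ℕ → ℂ) (f : ℕ)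
    (χ : DirichletCharacter ℂ f) :
    (∑ m ∈ s, c m * χ (m : ZMod f)) ^ k
      = ∑ n ∈ Icc 1 (M ^ k), al s k c n * χ (n : ZMod f) := by
  rw [Finset.sum_pow']
  rw [← Finset.sum_fiberwise_of_maps_to (g := fun d : Fin k → ℕ => ∏ i, d i)
    (fun d hd => prod_mem s M k hs d hd)]
  refine Finset.sum_congr rfl (fun n _ => ?_)
  rw [al, Finset.sum_mul]
  refine Finset.sum_congr rfl (fun d hd => ?_)
  rw [Finset.mem_filter] at hd
  rw [← hd.2, Finset.prod_mul_distrib]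
  push_cast
  rw [map_prod]

/-- second moment of the coefficients -/
theorem sum_al_sq (s : Finset ℕ) (M k : ℕ) (hs : s ⊆ Icc 1 M) (c : ℕ → ℂ) (B : ℝ)
    (hB : ∀ n ∈ Icc 1 (M ^ k), (((Fintype.piFinset (fun _ : Fin k => s)).filter
      (fun d => ∏ i, d i = n)).card : ℝ) ≤ B) :
    ∑ n ∈ Icc 1 (M ^ k), ‖al s k c n‖ ^ 2 ≤ B * (∑ m ∈ s, ‖c m‖ ^ 2) ^ k := by
  have h1 : ∀ n ∈ Icc 1 (M ^ k), ‖al s k c n‖ ^ 2
      ≤ B * ∑ d ∈ (Fintype.piFinset (fun _ : Fin k => s)).filter (fun d => ∏ i, d i = n),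
        ∏ i, ‖c (d i)‖ ^ 2 := by
    intro n hn
    rw [al]
    have h0 : ‖∑ d ∈ (Fintype.piFinset (fun _ : Fin k => s)).filter (fun d => ∏ i, d i = n),
        ∏ i, c (d i)‖ ≤ ∑ d ∈ (Fintype.piFinset (fun _ : Fin k => s)).filter
          (fun d => ∏ i, d i = n), ∏ i, ‖c (d i)‖ := by
      refine (norm_sum_le _ _).trans (le_of_eq ?_)
      refine Finset.sum_congr rfl (fun d _ => ?_)
      rw [norm_prod]
    refine (pow_le_pow_left₀ (norm_nonneg _) h0 2).trans ?_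
    refine (sq_sum_le_card_mul_sum_sq).trans ?_
    have h2 : ∑ d ∈ (Fintype.piFinset (fun _ : Fin k => s)).filter (fun d => ∏ i, d i = n),
        (∏ i, ‖c (d i)‖) ^ 2
        = ∑ d ∈ (Fintype.piFinset (fun _ : Fin k => s)).filter (fun d => ∏ i, d i = n),
        ∏ i, ‖c (d i)‖ ^ 2 := by
      refine Finset.sum_congr rfl (fun d _ => ?_)
      rw [Finset.prod_pow]
    rw [h2]
    refine mul_le_mul_of_nonneg_right (hB n hn) ?_
    exact Finset.sum_nonneg (fun d _ => Finset.prod_nonneg (fun i _ => sq_nonneg _))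
  refine (Finset.sum_le_sum h1).trans (le_of_eq ?_)
  rw [← Finset.mul_sum]
  congr 1
  rw [Finset.sum_fiberwise_of_maps_to (g := fun d : Fin k → ℕ => ∏ i, d i)
    (fun d hd => prod_mem s M k hs d hd)]
  exact (Finset.sum_pow' s (fun m => ‖c m‖ ^ 2) k).symm

/-- mean square over the characters of a large prime modulus -/
theorem mean_sq (r : ℕ) (hr : r.Prime) (L : ℕ) (hL : L < r) (a : ℕ → ℂ) :
    ∑ χ : DirichletCharacter ℂ r, ‖∑ n ∈ Icc 1 L, a n * χ (n : ZMod r)‖ ^ 2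
      = ((r : ℝ) - 1) * ∑ n ∈ Icc 1 L, ‖a n‖ ^ 2 := by
  have : Fact r.Prime := ⟨hr⟩
  have h1 : ∀ χ : DirichletCharacter ℂ r, ((‖∑ n ∈ Icc 1 L, a n * χ (n : ZMod r)‖ ^ 2 : ℝ) : ℂ)
      = ∑ n ∈ Icc 1 L, ∑ m ∈ Icc 1 L, (a n * (starRingEnd ℂ) (a m)) *
        (χ (n : ZMod r) * (starRingEnd ℂ) (χ (m : ZMod r))) := by
    intro χ
    have h2 : ((‖∑ n ∈ Icc 1 L, a n * χ (n : ZMod r)‖ ^ 2 : ℝ) : ℂ)
        = (∑ n ∈ Icc 1 L, a n * χ (n : ZMod r)) *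
          (starRingEnd ℂ) (∑ n ∈ Icc 1 L, a n * χ (n : ZMod r)) := by
      rw [Complex.mul_conj, Complex.normSq_eq_norm_sq]
    rw [h2, map_sum, Finset.sum_mul_sum]
    refine Finset.sum_congr rfl (fun n _ => Finset.sum_congr rfl (fun m _ => ?_))
    rw [map_mul]; ring
  have hcast : ∀ n ∈ Icc 1 L, ∀ m ∈ Icc 1 L, ((n : ZMod r) = (m : ZMod r) ∧ (n : ZMod r) ≠ 0) ↔ n = m := by
    intro n hn m hm
    rw [mem_Icc] at hn hm
    constructor
    · rintro ⟨h, -⟩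
      rw [ZMod.natCast_eq_natCast_iff'] at h
      rwa [Nat.mod_eq_of_lt (by omega), Nat.mod_eq_of_lt (by omega)] at h
    · rintro rfl
      refine ⟨rfl, ?_⟩
      rw [Ne, ZMod.natCast_eq_zero_iff]
      intro h
      have := Nat.le_of_dvd (by omega) h
      omega
  have h3 : ((∑ χ : DirichletCharacter ℂ r, ‖∑ n ∈ Icc 1 L, a n * χ (n : ZMod r)‖ ^ 2 : ℝ) : ℂ)
      = ((((r : ℝ) - 1) * ∑ n ∈ Icc 1 L, ‖a n‖ ^ 2 : ℝ) : ℂ) := by
    rw [Complex.ofReal_sum, Finset.sum_congr rfl (fun χ _ => h1 χ), Finset.sum_comm]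
    push_cast
    rw [Finset.mul_sum]
    refine Finset.sum_congr rfl (fun n hn => ?_)
    rw [Finset.sum_comm]
    have h4 : ∀ m ∈ Icc 1 L, ∑ χ : DirichletCharacter ℂ r, (a n * (starRingEnd ℂ) (a m)) *
        (χ (n : ZMod r) * (starRingEnd ℂ) (χ (m : ZMod r)))
        = if n = m then (a n * (starRingEnd ℂ) (a m)) * ((r : ℂ) - 1) else 0 := by
      intro m hm
      rw [← Finset.mul_sum, Pool.Agent.H735CB.sum_char]
      by_cases hnm : n = m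
      · rw [if_pos hnm, if_pos ((hcast n hn m hm).mpr hnm)]
      · rw [if_neg hnm, if_neg (fun h => hnm ((hcast n hn m hm).mp h)), mul_zero]
    rw [Finset.sum_congr rfl h4, Finset.sum_ite_eq, if_pos hn, Complex.mul_conj,
      Complex.normSq_eq_norm_sq]
    push_cast
    ring
  exact_mod_cast h3

/-- the 2k-th moment over the characters -/
theorem moment (s : Finset ℕ) (M k : ℕ) (hs : s ⊆ Icc 1 M) (c : ℕ → ℂ) (B : ℝ)
    (hB : ∀ n ∈ Icc 1 (M ^ k), (((Fintype.piFinset (fun _ : Fin k => s)).filter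
      (fun d => ∏ i, d i = n)).card : ℝ) ≤ B) (r : ℕ) (hr : r.Prime) (hrM : M ^ k < r) :
    ∑ χ : DirichletCharacter ℂ r, ‖∑ m ∈ s, c m * χ (m : ZMod r)‖ ^ (2 * k)
      ≤ (r : ℝ) * (B * (∑ m ∈ s, ‖c m‖ ^ 2) ^ k) := by
  have h1 : ∀ χ : DirichletCharacter ℂ r, ‖∑ m ∈ s, c m * χ (m : ZMod r)‖ ^ (2 * k)
      = ‖∑ n ∈ Icc 1 (M ^ k), al s k c n * χ (n : ZMod r)‖ ^ 2 := by
    intro χ
    rw [← pow_expand s M k hs, norm_pow, ← pow_mul, mul_comm k 2]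
  rw [Finset.sum_congr rfl (fun χ _ => h1 χ), mean_sq r hr (M ^ k) hrM]
  have h2 := sum_al_sq s M k hs c B hB
  have h3 : (0 : ℝ) ≤ ∑ n ∈ Icc 1 (M ^ k), ‖al s k c n‖ ^ 2 :=
    Finset.sum_nonneg (fun _ _ => sq_nonneg _)
  have hr1 : (1 : ℝ) ≤ r := by exact_mod_cast hr.one_lt.le
  calc ((r : ℝ) - 1) * ∑ n ∈ Icc 1 (M ^ k), ‖al s k c n‖ ^ 2
      ≤ r * ∑ n ∈ Icc 1 (M ^ k), ‖al s k c n‖ ^ 2 := mul_le_mul_of_nonneg_right (by linarith) h3
    _ ≤ _ := mul_le_mul_of_nonneg_left h2 (by linarith)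

end Pool.Agent.H735MQ
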